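import Mathlib

/-!
# MP_cbedb1_nt: divisibility of the self-convolution of `C(6k, 3k) C(3k, k)`

For every positive integer `n`, the number `8 (2 n - 1) C(3n, n)` divides
`S_n = ∑_{j=0}^{n} a_j a_{n-j}`, where `a_k = C(6k, 3k) C(3k, k)`.

Proof.  (1) `S_n = ∑_{j} C(6k, 3k) C(3k, k) C(2k, k) C(k, j) (-432) ^ j`, `k = n - j`: the generating
functions of both sides satisfy the same linear differential equation of order three.
(2) Each term of this sum is divisible by `8 (2 n - 1) C(3n, n)`: by Legendre's formula this follows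
from an inequality between integer parts.
-/

set_option autoImplicit false

namespace Pool.Agent.Results.MP_cbedb1_nt.SelfConvolution

open PowerSeries Finset

/-- `a_k = C(6k, 3k) C(3k, k)`. -/
def a (k : ℕ) : ℕ := (6 * k).choose (3 * k) * (3 * k).choose k

/-- `t_k = C(6k, 3k) C(3k, k) C(2k, k)`. -/
def t (k : ℕ) : ℕ := (6 * k).choose (3 * k) * (3 * k).choose k * (2 * k).choose k

lemma a_fact (k : ℕ) : a k * ((3 * k).factorial * (2 * k).factorial * k.factorial) =
    (6 * k).factorial := by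
  have h1 := Nat.choose_mul_factorial_mul_factorial (show 3 * k ≤ 6 * k by omega)
  have h2 := Nat.choose_mul_factorial_mul_factorial (show k ≤ 3 * k by omega)
  have e1 : 6 * k - 3 * k = 3 * k := by omega
  have e2 : 3 * k - k = 2 * k := by omega
  rw [e1] at h1
  rw [e2] at h2
  unfold a
  calc _ = (6 * k).choose (3 * k) * (3 * k).factorial *
        ((3 * k).choose k * k.factorial * (2 * k).factorial) := by ring
    _ = _ := by rw [h2, h1]

lemma t_fact (k : ℕ) : t k * ((3 * k).factorial * k.factorial ^ 3) = (6 * k).factorial := by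
  have h1 := a_fact k
  have h2 := Nat.choose_mul_factorial_mul_factorial (show k ≤ 2 * k by omega)
  have e1 : 2 * k - k = k := by omega
  rw [e1] at h2
  have : t k = a k * (2 * k).choose k := rfl
  rw [this, ← h1, ← h2]
  ring

lemma fact6 (k : ℕ) : (6 * (k + 1)).factorial =
    (6 * k + 6) * (6 * k + 5) * (6 * k + 4) * (6 * k + 3) * (6 * k + 2) * (6 * k + 1) *
      (6 * k).factorial := by
  have : 6 * (k + 1) = 6 * k + 1 + 1 + 1 + 1 + 1 + 1 := by ring
  rw [this]
  simp only [Nat.factorial_succ]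
  ring

lemma fact3 (k : ℕ) : (3 * (k + 1)).factorial =
    (3 * k + 3) * (3 * k + 2) * (3 * k + 1) * (3 * k).factorial := by
  have : 3 * (k + 1) = 3 * k + 1 + 1 + 1 := by ring
  rw [this]
  simp only [Nat.factorial_succ]
  ring

lemma fact2 (k : ℕ) : (2 * (k + 1)).factorial =
    (2 * k + 2) * (2 * k + 1) * (2 * k).factorial := by
  have : 2 * (k + 1) = 2 * k + 1 + 1 := by ring
  rw [this]
  simp only [Nat.factorial_succ]
  ring

lemma a_succ (k : ℕ) : (k + 1) ^ 2 * a (k + 1) = 12 * (6 * k + 1) * (6 * k + 5) * a k := by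
  have h0 := a_fact k
  have h1 := a_fact (k + 1)
  rw [fact6, fact3, fact2, Nat.factorial_succ k, ← h0] at h1
  have hpos : 0 < (3 * k + 3) * (3 * k + 2) * (3 * k + 1) * (3 * k).factorial *
      ((2 * k + 2) * (2 * k + 1) * (2 * k).factorial) * (k.factorial) := by
    have := Nat.factorial_pos (3 * k)
    have := Nat.factorial_pos (2 * k)
    have := Nat.factorial_pos k
    positivity
  apply Nat.eq_of_mul_eq_mul_left hpos
  have h3 : (k + 1) * (a (k + 1) *
      ((3 * k + 3) * (3 * k + 2) * (3 * k + 1) * (3 * k).factorial *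
        ((2 * k + 2) * (2 * k + 1) * (2 * k).factorial) * ((k + 1) * k.factorial))) =
      (k + 1) * ((6 * k + 6) * (6 * k + 5) * (6 * k + 4) * (6 * k + 3) * (6 * k + 2) * (6 * k + 1) *
      (a k * ((3 * k).factorial * (2 * k).factorial * k.factorial))) := by rw [h1]
  nlinarith [h3]

lemma t_succ (k : ℕ) :
    (k + 1) ^ 3 * t (k + 1) = 24 * (2 * k + 1) * (6 * k + 1) * (6 * k + 5) * t k := by
  have h0 := t_fact k
  have h1 := t_fact (k + 1)
  rw [fact6, fact3, Nat.factorial_succ k, ← h0] at h1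
  have hpos : 0 < (3 * k + 3) * (3 * k + 2) * (3 * k + 1) * (3 * k).factorial *
      (k.factorial) ^ 3 := by
    have := Nat.factorial_pos (3 * k)
    have := Nat.factorial_pos k
    positivity
  apply Nat.eq_of_mul_eq_mul_left hpos
  nlinarith [h1]

/-- The derivation `θ = X d/dX` of `ℚ⟦X⟧`. -/
noncomputable def θ : Derivation ℚ ℚ⟦X⟧ ℚ⟦X⟧ := (X : ℚ⟦X⟧) • PowerSeries.derivative ℚ

lemma θ_apply (f : ℚ⟦X⟧) : θ f = X * PowerSeries.derivative ℚ f := rfl

lemma coeff_θ (n : ℕ) (f : ℚ⟦X⟧) : coeff n (θ f) = n * coeff n f := by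
  rw [θ_apply]
  cases n with
  | zero => simp
  | succ n =>
    rw [coeff_succ_X_mul, coeff_derivative]
    push_cast
    ring

lemma θ_mul (f g : ℚ⟦X⟧) : θ (f * g) = θ f * g + f * θ g := by
  rw [Derivation.leibniz]
  simp only [smul_eq_mul]
  ring

lemma θ_X : θ (X : ℚ⟦X⟧) = X := by
  rw [θ_apply]; simp

lemma θ_num (m : ℕ) : θ (m : ℚ⟦X⟧) = 0 := Derivation.map_natCast θ m

lemma coeff_num_mul (n m : ℕ) (f : ℚ⟦X⟧) :
    coeff n ((m : ℚ⟦X⟧) * f) = m * coeff n f := by
  have : (m : ℚ⟦X⟧) = C (m : ℚ) := (map_natCast C m).symm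
  rw [this, coeff_C_mul]

lemma θ_num_mul (m : ℕ) (f : ℚ⟦X⟧) : θ ((m : ℚ⟦X⟧) * f) = m * θ f := by
  rw [θ_mul, θ_num]; ring

/-- `w = 1 - 432 X`. -/
noncomputable def w : ℚ⟦X⟧ := 1 - ((432 : ℕ) : ℚ⟦X⟧) * X

lemma θ_w : θ w = w - 1 := by
  unfold w
  rw [map_sub, θ_num_mul, θ_X, Derivation.map_one_eq_zero]
  ring

/-- A differential operator of order two. -/
noncomputable def U (f : ℚ⟦X⟧) : ℚ⟦X⟧ :=
  w * θ (θ f) - (1 - w) * θ f - ((120 : ℕ) : ℚ⟦X⟧) * (X * f)

/-- The differential operator of order three which annihilates both sides. -/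
noncomputable def E (f : ℚ⟦X⟧) : ℚ⟦X⟧ :=
  w * θ (U f) - (1 - w) * U f - ((120 : ℕ) : ℚ⟦X⟧) * (X * (w * θ f))

lemma U_sub (f g : ℚ⟦X⟧) : U (f - g) = U f - U g := by
  unfold U; simp only [map_sub]; ring

lemma E_sub (f g : ℚ⟦X⟧) : E (f - g) = E f - E g := by
  unfold E; rw [U_sub]; simp only [map_sub]; ring

/-- generating function of `a` -/
noncomputable def A : ℚ⟦X⟧ := PowerSeries.mk fun k => (a k : ℚ)

lemma ode_A : w * θ (θ A) = (1 - w) * θ A + ((60 : ℕ) : ℚ⟦X⟧) * (X * A) := by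
  have h : ∀ n : ℕ, ((n : ℚ) + 1) ^ 2 * (a (n + 1) : ℚ) =
      12 * (6 * n + 1) * (6 * n + 5) * (a n : ℚ) := by
    intro n; exact_mod_cast a_succ n
  have e1 : w * θ (θ A) = θ (θ A) - ((432 : ℕ) : ℚ⟦X⟧) * (X * θ (θ A)) := by unfold w; ring
  have e2 : (1 - w) * θ A + ((60 : ℕ) : ℚ⟦X⟧) * (X * A) =
      ((432 : ℕ) : ℚ⟦X⟧) * (X * θ A) + ((60 : ℕ) : ℚ⟦X⟧) * (X * A) := by unfold w; ring
  rw [e1, e2]
  ext n
  cases n with
  | zero =>
    simp only [map_sub, map_add, coeff_num_mul, coeff_zero_X_mul, coeff_θ]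
    simp
  | succ n =>
    simp only [map_sub, map_add, coeff_num_mul, coeff_succ_X_mul, coeff_θ]
    unfold A
    rw [coeff_mk, coeff_mk]
    have := h n
    push_cast
    nlinarith [this]

lemma w_ne : w ≠ 0 := by
  intro h
  have := congrArg (coeff 0) h
  unfold w at this
  rw [map_sub, coeff_num_mul, map_zero] at this
  simp at this

/-- the square of the generating function of `a` satisfies the equation -/
lemma E_square : E (A * A) = 0 := by
  have h := ode_A
  have h1 : θ (A * A) = ((2 : ℕ) : ℚ⟦X⟧) * (A * θ A) := by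
    rw [θ_mul]; push_cast; ring
  have h2 : θ (θ (A * A)) = ((2 : ℕ) : ℚ⟦X⟧) * (θ A * θ A + A * θ (θ A)) := by
    rw [h1, θ_num_mul, θ_mul]
  have h3 : U (A * A) = ((2 : ℕ) : ℚ⟦X⟧) * (w * (θ A * θ A)) := by
    unfold U
    rw [h2, h1]
    push_cast at h ⊢
    linear_combination 2 * A * h
  have h4 : θ (U (A * A)) = ((2 : ℕ) : ℚ⟦X⟧) * ((w - 1) * (θ A * θ A) + w * (2 * (θ A * θ (θ A)))) := by
    rw [h3, θ_num_mul, θ_mul, θ_w, θ_mul]
    push_cast; ring
  unfold E
  rw [h4, h3, h1]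
  push_cast at h ⊢
  linear_combination 4 * w * θ A * h

/-- `z = X (1 - 432 X)` -/
noncomputable def z : ℚ⟦X⟧ := X * w

lemma θ_z : w * θ z = (2 * w - 1) * z := by
  unfold z
  rw [θ_mul, θ_w, θ_X]
  ring

lemma θ_z_pow (k : ℕ) : w * θ (z ^ k) = (2 * w - 1) * ((k : ℚ⟦X⟧) * z ^ k) := by
  induction k with
  | zero => simp [Derivation.map_one_eq_zero]
  | succ k ih =>
    rw [pow_succ, θ_mul]
    have := θ_z
    push_cast
    linear_combination z * ih + z ^ k * this

/-- the truncated generating functions -/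
noncomputable def P (N i : ℕ) : ℚ⟦X⟧ :=
  ∑ k ∈ range (N + 1), ((t k * k ^ i : ℕ) : ℚ⟦X⟧) * z ^ k

lemma θ_P (N i : ℕ) : w * θ (P N i) = (2 * w - 1) * P N (i + 1) := by
  unfold P
  rw [map_sum, mul_sum, mul_sum]
  refine sum_congr rfl fun k _ => ?_
  rw [θ_num_mul]
  have := θ_z_pow k
  push_cast
  linear_combination (t k : ℚ⟦X⟧) * k ^ i * this

lemma P_rel (N : ℕ) : P N 3 - 24 * z * (72 * P N 3 + 108 * P N 2 + 46 * P N 1 + 5 * P N 0) =
    - (24 * ((2 * N + 1) * (6 * N + 1) * (6 * N + 5)) * t N) * z ^ (N + 1) := by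
  unfold P
  induction N with
  | zero => simp [t]; ring
  | succ N ih =>
    rw [sum_range_succ, sum_range_succ _ (N + 1), sum_range_succ _ (N + 1),
      sum_range_succ _ (N + 1)]
    have h : ((N : ℚ⟦X⟧) + 1) ^ 3 * (t (N + 1) : ℚ⟦X⟧) =
      24 * (2 * N + 1) * (6 * N + 1) * (6 * N + 5) * (t N : ℚ⟦X⟧) := by
      have h0 := congrArg (Nat.cast (R := ℚ⟦X⟧)) (t_succ N)
      push_cast at h0
      exact h0
    push_cast at ih ⊢
    linear_combination ih + z ^ (N + 1) * h

lemma E_P (N : ℕ) : w * E (P N 0) =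
    - ((2 * w - 1) * (24 * ((2 * N + 1) * (6 * N + 1) * (6 * N + 5)) * t N)) * z ^ (N + 1) := by
  have g1 := θ_P N 0
  have g2 := θ_P N 1
  have g3 := θ_P N 2
  simp only [zero_add, Nat.reduceAdd] at g1 g2 g3
  have θv : θ (2 * w - 1) = 2 * (w - 1) := by
    have : (2 * w - 1 : ℚ⟦X⟧) = ((2 : ℕ) : ℚ⟦X⟧) * w - 1 := by push_cast; ring
    rw [this, map_sub, θ_num_mul, θ_w, Derivation.map_one_eq_zero]
    push_cast; ring
  have θ1 : θ (w - 1) = w - 1 := by
    rw [map_sub, θ_w, Derivation.map_one_eq_zero]; ring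
  have k1 : (w - 1) * θ (P N 0) + w * θ (θ (P N 0)) =
      2 * (w - 1) * P N 1 + (2 * w - 1) * θ (P N 1) := by
    have := congrArg θ g1
    rw [θ_mul, θ_mul, θ_w, θv] at this
    exact this
  have k2 : w * (w * θ (θ (P N 0))) = (w - 1) * P N 1 + (2 * w - 1) * ((2 * w - 1) * P N 2) := by
    linear_combination w * k1 + (2 * w - 1) * g2 - (w - 1) * g1
  have k3 : 2 * w * (w - 1) * θ (θ (P N 0)) + w ^ 2 * θ (θ (θ (P N 0))) =
      (w - 1) * P N 1 + (w - 1) * θ (P N 1) + 4 * (2 * w - 1) * (w - 1) * P N 2 +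
        (2 * w - 1) ^ 2 * θ (P N 2) := by
    have := congrArg θ k2
    rw [map_add, θ_mul, θ_mul, θ_mul, θ_mul, θ_mul, θ_w, θv, θ1] at this
    linear_combination this
  have hU : θ (U (P N 0)) = w * θ (θ (θ (P N 0))) + 2 * (w - 1) * θ (θ (P N 0)) +
      (w - 1) * θ (P N 0) - 120 * (X * (P N 0 + θ (P N 0))) := by
    unfold U
    have : (1 - w) * θ (P N 0) = - ((w - 1) * θ (P N 0)) := by ring
    rw [map_sub, map_sub, this, map_neg, θ_mul, θ_mul, θ_num_mul, θ_mul, θ_w, θ1, θ_X]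
    push_cast; ring
  have hrel := P_rel N
  have hx : (432 : ℚ⟦X⟧) * X = 1 - w := by unfold w; push_cast; ring
  have hzX : z = X * w := rfl
  unfold E
  rw [hU]
  unfold U
  push_cast
  generalize z ^ (N + 1) = zN at hrel ⊢
  rw [hzX] at hrel
  linear_combination w * k3 + (w - 1) * g2 + (2 * w - 1) ^ 2 * g3 + (w - 1) * k2 +
    ((w - 1) * (2 * w - 1) - 240 * (X * w)) * g1 + (2 * w - 1) * hrel +
    (2 * w - 1) * w * (2 * P N 1 + 6 * P N 2 + 4 * P N 3) * hx

/-- coefficients of `U f` -/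
lemma coeff_U_zero (f : ℚ⟦X⟧) : coeff 0 (U f) = 0 := by
  have : U f = θ (θ f) - ((432 : ℕ) : ℚ⟦X⟧) * (X * θ (θ f)) -
      ((432 : ℕ) : ℚ⟦X⟧) * (X * θ f) - ((120 : ℕ) : ℚ⟦X⟧) * (X * f) := by
    unfold U w; ring
  rw [this]
  simp only [map_sub, coeff_num_mul, coeff_zero_X_mul, coeff_θ]
  simp

lemma coeff_U_succ (f : ℚ⟦X⟧) (n : ℕ) : coeff (n + 1) (U f) =
    (n + 1) ^ 2 * coeff (n + 1) f - (432 * n ^ 2 + 432 * n + 120) * coeff n f := by
  have : U f = θ (θ f) - ((432 : ℕ) : ℚ⟦X⟧) * (X * θ (θ f)) -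
      ((432 : ℕ) : ℚ⟦X⟧) * (X * θ f) - ((120 : ℕ) : ℚ⟦X⟧) * (X * f) := by
    unfold U w; ring
  rw [this]
  simp only [map_sub, coeff_num_mul, coeff_succ_X_mul, coeff_θ]
  push_cast; ring

lemma E_expand (f : ℚ⟦X⟧) : E f = θ (U f) - ((432 : ℕ) : ℚ⟦X⟧) * (X * θ (U f)) -
    ((432 : ℕ) : ℚ⟦X⟧) * (X * U f) - ((120 : ℕ) : ℚ⟦X⟧) * (X * θ f) +
      ((51840 : ℕ) : ℚ⟦X⟧) * (X * (X * θ f)) := by
  unfold E w; push_cast; ring

lemma uniq (N : ℕ) (f : ℚ⟦X⟧) (h0 : coeff 0 f = 0) (h : ∀ m ≤ N, coeff m (E f) = 0) :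
    ∀ m ≤ N, coeff m f = 0 := by
  intro m
  induction m using Nat.strong_induction_on with
  | _ m ih =>
    intro hm
    match m, ih, hm with
    | 0, _, _ => exact h0
    | 1, ih, hm =>
      have h1 := h 1 hm
      rw [E_expand] at h1
      simp only [map_sub, map_add, coeff_num_mul, coeff_θ] at h1
      have e1 : ∀ g : ℚ⟦X⟧, coeff 1 (X * g) = coeff 0 g := fun g => coeff_succ_X_mul 0 g
      rw [e1, e1, e1, e1, coeff_θ, coeff_θ, coeff_U_zero, coeff_zero_X_mul] at h1
      have e2 := coeff_U_succ f 0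
      rw [zero_add] at e2
      rw [e2, h0] at h1
      push_cast at h1
      linarith
    | n + 2, ih, hm =>
      have h1 := h (n + 2) hm
      have i1 := ih (n + 1) (by omega) (by omega)
      have i0 := ih n (by omega) (by omega)
      rw [E_expand] at h1
      have e1 : ∀ g : ℚ⟦X⟧, coeff (n + 2) (X * g) = coeff (n + 1) g :=
        fun g => coeff_succ_X_mul (n + 1) g
      simp only [map_sub, map_add, coeff_num_mul, coeff_θ, e1, coeff_succ_X_mul] at h1
      have e2 := coeff_U_succ f (n + 1)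
      have e3 := coeff_U_succ f n
      rw [e2, e3, i1, i0] at h1
      push_cast at h1
      have h2 : ((n : ℚ) + 2) ^ 3 * coeff (n + 2) f = 0 := by
        have : n + 1 + 1 = n + 2 := rfl
        rw [this] at h1
        linarith
      have h3 : ((n : ℚ) + 2) ^ 3 ≠ 0 := by positivity
      exact (mul_eq_zero.mp h2).resolve_left h3

lemma coeff_E_P (N m : ℕ) (hm : m ≤ N) : coeff m (E (P N 0)) = 0 := by
  have h := E_P N
  obtain ⟨c, hc⟩ : ∃ c : ℚ⟦X⟧, c = (2 * w - 1) *
    (24 * ((2 * N + 1) * (6 * N + 1) * (6 * N + 5)) * t N) := ⟨_, rfl⟩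
  rw [← hc] at h
  have h1 : w * (E (P N 0) + X ^ (N + 1) * (w ^ N * c)) = 0 := by
    have hz : z ^ (N + 1) = X ^ (N + 1) * (w ^ N * w) := by
      unfold z; rw [mul_pow]; ring
    rw [hz] at h
    linear_combination h
  have h2 := (mul_eq_zero.mp h1).resolve_left w_ne
  have h3 : E (P N 0) = X ^ (N + 1) * (-(w ^ N * c)) := by
    linear_combination h2
  rw [h3, coeff_X_pow_mul', if_neg (by omega)]

lemma coeff_w_pow (k j : ℕ) : coeff j (w ^ k) = (-432) ^ j * (k.choose j : ℚ) := by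
  have hw : w = C (-432) * X + 1 := by
    unfold w
    rw [map_neg]
    have : (C (432 : ℚ) : ℚ⟦X⟧) = ((432 : ℕ) : ℚ⟦X⟧) := by
      rw [← map_natCast C]; norm_num
    rw [this]; ring
  rw [hw, add_pow, map_sum]
  have : ∀ m ∈ range (k + 1), coeff j ((C (-432) * X : ℚ⟦X⟧) ^ m * 1 ^ (k - m) *
      (k.choose m : ℚ⟦X⟧)) = if j = m then (-432) ^ j * (k.choose j : ℚ) else 0 := by
    intro m _
    have e : (C (-432) * X : ℚ⟦X⟧) ^ m * 1 ^ (k - m) * (k.choose m : ℚ⟦X⟧) =
        C ((-432) ^ m * (k.choose m : ℚ)) * X ^ m := by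
      rw [one_pow, mul_pow, map_mul, map_pow, map_natCast]
      ring
    rw [e, coeff_C_mul, coeff_X_pow]
    split_ifs with h
    · subst h; ring
    · ring
  rw [sum_congr rfl this, sum_ite_eq]
  split_ifs with h
  · rfl
  · rw [mem_range, not_lt] at h
    rw [Nat.choose_eq_zero_of_lt (by omega)]
    simp

lemma coeff_P (n : ℕ) : coeff n (P n 0) =
    ∑ k ∈ range (n + 1), (t k : ℚ) * ((-432) ^ (n - k) * (k.choose (n - k) : ℚ)) := by
  unfold P
  rw [map_sum]
  refine sum_congr rfl fun k hk => ?_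
  rw [mem_range] at hk
  rw [coeff_num_mul, pow_zero, mul_one]
  unfold z
  rw [mul_pow, coeff_X_pow_mul', if_pos (by omega), coeff_w_pow]

lemma coeff_E_sq_sub (N m : ℕ) (hm : m ≤ N) : coeff m (E (A * A - P N 0)) = 0 := by
  rw [E_sub, map_sub, coeff_E_P N m hm]
  simp [E_square]

/-- the self-convolution of `a`, as an alternating sum -/
lemma convolution (n : ℕ) : (∑ j ∈ range (n + 1), (a j : ℤ) * (a (n - j) : ℤ)) =
    ∑ k ∈ range (n + 1), (t k : ℤ) * ((-432) ^ (n - k) * (k.choose (n - k) : ℤ)) := by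
  have h1 : coeff n (A * A) = ∑ j ∈ range (n + 1), (a j : ℚ) * (a (n - j) : ℚ) := by
    rw [coeff_mul, Nat.sum_antidiagonal_eq_sum_range_succ (fun i j => coeff i A * coeff j A)]
    refine sum_congr rfl fun j _ => ?_
    unfold A
    rw [coeff_mk, coeff_mk]
  have h0 : coeff 0 (A * A - P n 0) = 0 := by
    rw [map_sub]
    have e1 : coeff 0 (A * A) = 1 := by
      rw [coeff_mul]
      simp [A, a]
    have e2 : coeff 0 (P n 0) = 1 := by
      unfold P
      rw [map_sum, sum_range_succ', sum_eq_zero]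
      · simp [t]
      · intro k _
        unfold z
        rw [coeff_num_mul, mul_pow, coeff_X_pow_mul', if_neg (by omega), mul_zero]
    rw [e1, e2, sub_self]
  have h2 := uniq n (A * A - P n 0) h0 (fun m hm => coeff_E_sq_sub n m hm) n le_rfl
  rw [map_sub, sub_eq_zero, h1, coeff_P] at h2
  exact_mod_cast h2

/-! ### The divisibility of the terms -/

lemma div_red (c d m q : ℕ) (hd : 0 < d) : (c * d * m / q) / d = c * m / q := by
  rw [Nat.div_div_eq_div_mul, show c * d * m = c * m * d by ring, Nat.mul_div_mul_right _ _ hd]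

lemma div_bd (x y q : ℕ) (hq : 0 < q) :
    x / q + y / q ≤ (x + y) / q ∧ (x + y) / q ≤ x / q + y / q + 1 := by
  rw [Nat.add_div hq]
  split_ifs <;> omega

/-- the relations between the integer parts -/
lemma rel (i j q : ℕ) (hq : 0 < q) : ∃ A B I J : ℕ,
    6 * (i + j) / q = A ∧ 3 * (i + j) / q = A / 2 ∧ (i + j) / q = A / 6 ∧
    i / q = I / 6 ∧ j / q = J / 6 ∧
    6 * (i + 2 * j) / q = B ∧
    3 * (i + 2 * j) / q = B / 2 ∧ 2 * (i + 2 * j) / q = B / 3 ∧ (i + 2 * j) / q = B / 6 ∧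
    I + J ≤ A ∧ A ≤ I + J + 1 ∧ A + J ≤ B ∧ B ≤ A + J + 1 ∧ B + I ≤ 2 * A + 1 ∧
    2 * A ≤ B + I + 1 := by
  refine ⟨6 * (i + j) / q, 6 * (i + 2 * j) / q, 6 * i / q, 6 * j / q, rfl, ?_, ?_, ?_, ?_, rfl,
    ?_, ?_, ?_, ?_⟩
  · exact (div_red 3 2 (i + j) q (by norm_num)).symm
  · simpa using (div_red 1 6 (i + j) q (by norm_num)).symm
  · simpa using (div_red 1 6 i q (by norm_num)).symm
  · simpa using (div_red 1 6 j q (by norm_num)).symm
  · exact (div_red 3 2 (i + 2 * j) q (by norm_num)).symm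
  · exact (div_red 2 3 (i + 2 * j) q (by norm_num)).symm
  · simpa using (div_red 1 6 (i + 2 * j) q (by norm_num)).symm
  · have h1 := div_bd (6 * i) (6 * j) q hq
    have h2 := div_bd (6 * (i + j)) (6 * j) q hq
    have h3 := div_bd (6 * (i + j)) (6 * (i + j)) q hq
    have h4 := div_bd (6 * (i + 2 * j)) (6 * i) q hq
    rw [show 6 * i + 6 * j = 6 * (i + j) by ring] at h1
    rw [show 6 * (i + j) + 6 * j = 6 * (i + 2 * j) by ring] at h2
    rw [show 6 * (i + 2 * j) + 6 * i = 6 * (i + j) + 6 * (i + j) by ring] at h4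
    omega

lemma arith_fin : ∀ r s : Fin 6, ∀ d e : Fin 2,
    (r.1 + 2 * s.1 + d.1 + e.1) + r.1 ≤ 2 * (r.1 + s.1 + d.1) + 1 →
    2 * (r.1 + s.1 + d.1) ≤ (r.1 + 2 * s.1 + d.1 + e.1) + r.1 + 1 →
    (r.1 + s.1 + d.1) / 2 + 2 * ((r.1 + s.1 + d.1) / 6) + (r.1 + 2 * s.1 + d.1 + e.1) / 2 ≤
      (r.1 + s.1 + d.1) + (r.1 + 2 * s.1 + d.1 + e.1) / 6 + (r.1 + 2 * s.1 + d.1 + e.1) / 3 := by
  decide

lemma dm (x r m k : ℕ) (hm : 0 < m) : (m * k * x + r) / m = k * x + r / m := by
  rw [mul_assoc, Nat.mul_add_div hm]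

lemma arith0 (A B I J : ℕ) (h1 : I + J ≤ A) (h2 : A ≤ I + J + 1) (h3 : A + J ≤ B)
    (h4 : B ≤ A + J + 1) (h5 : B + I ≤ 2 * A + 1) (h6 : 2 * A ≤ B + I + 1) :
    A / 2 + 2 * (A / 6) + I / 6 + J / 6 + B / 2 ≤ A + B / 6 + B / 3 := by
  obtain ⟨d, hd⟩ : ∃ d, A = I + J + d := ⟨A - (I + J), by omega⟩
  obtain ⟨e, he⟩ : ∃ e, B = A + J + e := ⟨B - (A + J), by omega⟩
  have hd2 : d < 2 := by omega
  have he2 : e < 2 := by omega
  have hI := Nat.div_add_mod I 6
  have hJ := Nat.div_add_mod J 6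
  have hr : I % 6 < 6 := Nat.mod_lt _ (by norm_num)
  have hs : J % 6 < 6 := Nat.mod_lt _ (by norm_num)
  generalize I / 6 = x at hI ⊢
  generalize J / 6 = y at hJ ⊢
  generalize I % 6 = r at hI hr
  generalize J % 6 = s at hJ hs
  have hA : A = 6 * (x + y) + (r + s + d) := by omega
  have hB : B = 6 * (x + 2 * y) + (r + 2 * s + d + e) := by omega
  have key := arith_fin ⟨r, hr⟩ ⟨s, hs⟩ ⟨d, hd2⟩ ⟨e, he2⟩ (by simp only; omega)
    (by simp only; omega)
  simp only at key
  have g3 : A / 2 = 3 * (x + y) + (r + s + d) / 2 := by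
    rw [hA]; exact dm (x + y) (r + s + d) 2 3 (by norm_num)
  have g4 : A / 6 = (x + y) + (r + s + d) / 6 := by
    rw [hA]; simpa using dm (x + y) (r + s + d) 6 1 (by norm_num)
  have g5 : B / 2 = 3 * (x + 2 * y) + (r + 2 * s + d + e) / 2 := by
    rw [hB]; exact dm (x + 2 * y) (r + 2 * s + d + e) 2 3 (by norm_num)
  have g6 : B / 3 = 2 * (x + 2 * y) + (r + 2 * s + d + e) / 3 := by
    rw [hB]; exact dm (x + 2 * y) (r + 2 * s + d + e) 3 2 (by norm_num)
  have g7 : B / 6 = (x + 2 * y) + (r + 2 * s + d + e) / 6 := by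
    rw [hB]; simpa using dm (x + 2 * y) (r + 2 * s + d + e) 6 1 (by norm_num)
  rw [g3, g4, g5, g6, g7, hA]
  clear g3 g4 g5 g6 g7 hA hB h1 h2 h3 h4 h5 h6 hd he hI hJ hr hs hd2 he2
  generalize (r + s + d) / 2 = u1 at key ⊢
  generalize (r + s + d) / 6 = u2 at key ⊢
  generalize (r + 2 * s + d + e) / 2 = u3 at key ⊢
  generalize (r + 2 * s + d + e) / 6 = u4 at key ⊢
  generalize (r + 2 * s + d + e) / 3 = u5 at key ⊢
  linarith

lemma arith1 (A B I J c : ℕ) (_ : I + J ≤ A) (_ : A ≤ I + J + 1) (h3 : A + J ≤ B)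
    (h4 : B ≤ A + J + 1) (h5 : B + I ≤ 2 * A + 1) (h6 : 2 * A ≤ B + I + 1)
    (hc : B = 3 * (2 * c + 1)) :
    A / 2 + 2 * (A / 6) + I / 6 + J / 6 + B / 2 + 1 ≤ A + B / 6 + B / 3 := by
  omega
/-- the inequality between integer parts -/
lemma floor0 (i j q : ℕ) (hq : 0 < q) :
    3 * (i + j) / q + 2 * ((i + j) / q) + i / q + j / q + 3 * (i + 2 * j) / q ≤
      6 * (i + j) / q + (i + 2 * j) / q + 2 * (i + 2 * j) / q := by
  obtain ⟨A, B, I, J, e1, e2, e3, e4, e5, e6, e7, e8, e9, h1, h2, h3, h4, h5, h6⟩ := rel i j q hq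
  rw [e1, e2, e3, e4, e5, e7, e8, e9]
  have := arith0 A B I J h1 h2 h3 h4 h5 h6
  omega

/-- the inequality between integer parts, if `q > 3` divides `2 n - 1` -/
lemma floor1 (i j q : ℕ) (hq : 3 < q) (hn : 0 < i + 2 * j) (hd : q ∣ 2 * (i + 2 * j) - 1) :
    3 * (i + j) / q + 2 * ((i + j) / q) + i / q + j / q + 3 * (i + 2 * j) / q + 1 ≤
      6 * (i + j) / q + (i + 2 * j) / q + 2 * (i + 2 * j) / q := by
  obtain ⟨A, B, I, J, e1, e2, e3, e4, e5, e6, e7, e8, e9, h1, h2, h3, h4, h5, h6⟩ :=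
    rel i j q (by omega)
  obtain ⟨c, hc⟩ := hd
  have hodd : c % 2 = 1 := by
    rcases Nat.mod_two_eq_zero_or_one c with h | h
    · exfalso
      have : (q * c) % 2 = 0 := by rw [Nat.mul_mod, h]; simp
      omega
    · exact h
  have hB : B = 3 * (2 * (c / 2) + 1) := by
    have h7 : 6 * (i + 2 * j) = 3 + q * (3 * c) := by
      have : 2 * (i + 2 * j) = q * c + 1 := by omega
      calc 6 * (i + 2 * j) = 3 * (2 * (i + 2 * j)) := by ring
        _ = 3 * (q * c + 1) := by rw [this]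
        _ = _ := by ring
    rw [← e6, h7, Nat.add_mul_div_left _ _ (by omega), Nat.div_eq_of_lt hq]
    omega
  rw [e1, e2, e3, e4, e5, e7, e8, e9]
  have := arith1 A B I J (c / 2) h1 h2 h3 h4 h5 h6 hB
  omega

lemma cb_double (m : ℕ) : (Nat.centralBinom (2 * m)).factorization 2 =
    (Nat.centralBinom m).factorization 2 := by
  have key : ∀ k : ℕ, (2 * k).factorial.factorization 2 =
      (Nat.centralBinom k).factorization 2 + 2 * k.factorial.factorization 2 := by
    intro k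
    have h := Nat.choose_mul_factorial_mul_factorial (show k ≤ 2 * k by omega)
    rw [show 2 * k - k = k by omega] at h
    have hc : Nat.centralBinom k ≠ 0 := Nat.centralBinom_ne_zero k
    have hk : k.factorial ≠ 0 := Nat.factorial_ne_zero k
    rw [← h, ← Nat.centralBinom_eq_two_mul_choose, Nat.factorization_mul (mul_ne_zero hc hk) hk,
      Nat.factorization_mul hc hk]
    simp only [Finsupp.add_apply]
    ring
  have k1 := key (2 * m)
  have k2 := key m
  have k3 := Nat.factorization_factorial_mul (n := 2 * m) Nat.prime_two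
  have k4 := Nat.factorization_factorial_mul (n := m) Nat.prime_two
  omega

lemma four_dvd (n : ℕ) (hn : 0 < n) : 4 ∣ Nat.centralBinom (3 * n) := by
  have h4 : ∀ m : ℕ, 4 ∣ Nat.centralBinom m ↔ 2 ≤ (Nat.centralBinom m).factorization 2 := by
    intro m
    have := Nat.Prime.pow_dvd_iff_le_factorization (p := 2) (k := 2) Nat.prime_two
      (Nat.centralBinom_ne_zero m)
    simpa using this
  induction n using Nat.strong_induction_on with
  | _ n ih =>
    rcases Nat.even_or_odd' n with ⟨m, rfl | rfl⟩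
    · have := ih m (by omega) (by omega)
      rw [h4] at this ⊢
      rw [show 3 * (2 * m) = 2 * (3 * m) by ring, cb_double]
      exact this
    · have h1 := Nat.succ_mul_centralBinom_succ (3 * (2 * m + 1) - 1)
      rw [show 3 * (2 * m + 1) - 1 + 1 = 3 * (2 * m + 1) by omega] at h1
      have h2 : 2 ∣ Nat.centralBinom (3 * (2 * m + 1) - 1) :=
        Nat.two_dvd_centralBinom_of_one_le (by omega)
      obtain ⟨c, hc⟩ := h2
      have h3 : 4 ∣ (3 * (2 * m + 1)) * Nat.centralBinom (3 * (2 * m + 1)) := by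
        rw [h1, hc]
        exact ⟨(2 * (3 * (2 * m + 1) - 1) + 1) * c, by ring⟩
      have h5 : Nat.Coprime 4 (3 * (2 * m + 1)) := by
        have : Nat.Coprime 2 (3 * (2 * m + 1)) := by
          rw [Nat.coprime_two_left]
          exact ⟨3 * m + 1, by ring⟩
        exact Nat.Coprime.pow_left 2 this
      exact h5.dvd_of_dvd_mul_left h3

lemma cb_catalan (n : ℕ) (hn : 0 < n) :
    Nat.centralBinom n = 2 * (2 * n - 1) * catalan (n - 1) := by
  obtain ⟨m, rfl⟩ : ∃ m, n = m + 1 := ⟨n - 1, by omega⟩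
  have h1 := Nat.succ_mul_centralBinom_succ m
  have h2 := succ_mul_catalan_eq_centralBinom m
  rw [← h2] at h1
  apply Nat.eq_of_mul_eq_mul_left (show 0 < m + 1 by omega)
  rw [h1]
  have e1 : 2 * (m + 1) - 1 = 2 * m + 1 := by omega
  have e2 : m + 1 - 1 = m := by omega
  rw [e1, e2]
  ring


/-- the terms with `k = n` -/
lemma dvd_zero_case (n : ℕ) (hn : 0 < n) : 8 * (2 * n - 1) * (3 * n).choose n ∣ t n := by
  obtain ⟨c, hc⟩ := four_dvd n hn
  have h1 := cb_catalan n hn
  rw [Nat.centralBinom_eq_two_mul_choose] at hc h1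
  unfold t
  rw [show 6 * n = 2 * (3 * n) by ring, hc, h1]
  exact ⟨c * catalan (n - 1), by ring⟩

/-- the terms with `k = i + j`, `n = i + 2 j`, `j > 0` -/
lemma dvd_pos_case (i j : ℕ) (hj : 0 < j) :
    8 * (2 * (i + 2 * j) - 1) * (3 * (i + 2 * j)).choose (i + 2 * j) ∣
      t (i + j) * (432 ^ j * (i + j).choose j) := by
  set n := i + 2 * j with hn
  set k := i + j with hk
  have hn0 : 0 < n := by omega
  have c1 : (3 * n).choose n ≠ 0 := (Nat.choose_pos (by omega)).ne'
  have c2 : k.choose j ≠ 0 := (Nat.choose_pos (by omega)).ne'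
  have c3 : t k ≠ 0 := by
    have := t_fact k
    intro h
    rw [h, zero_mul] at this
    exact (Nat.factorial_ne_zero _) this.symm
  have c4 : 2 * n - 1 ≠ 0 := by omega
  have c5 : (432 : ℕ) ^ j ≠ 0 := by positivity
  rw [← Nat.factorization_prime_le_iff_dvd (mul_ne_zero (mul_ne_zero (by norm_num) c4) c1)
    (mul_ne_zero c3 (mul_ne_zero c5 c2))]
  intro p hp
  have h1 := t_fact k
  have h2 : k.choose j * j.factorial * i.factorial = k.factorial := by
    have := Nat.choose_mul_factorial_mul_factorial (show j ≤ k by omega)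
    rwa [show k - j = i by omega] at this
  have h3 : (3 * n).choose n * n.factorial * (2 * n).factorial = (3 * n).factorial := by
    have := Nat.choose_mul_factorial_mul_factorial (show n ≤ 3 * n by omega)
    rwa [show 3 * n - n = 2 * n by omega] at this
  have f1 := congrArg (fun m => m.factorization p) h1
  have f2 := congrArg (fun m => m.factorization p) h2
  have f3 := congrArg (fun m => m.factorization p) h3
  have z : ∀ m : ℕ, m.factorial ≠ 0 := Nat.factorial_ne_zero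
  rw [Nat.factorization_mul c3 (mul_ne_zero (z _) (pow_ne_zero _ (z _))),
    Nat.factorization_mul (z _) (pow_ne_zero _ (z _)), Nat.factorization_pow] at f1
  rw [Nat.factorization_mul (mul_ne_zero c2 (z _)) (z _), Nat.factorization_mul c2 (z _)] at f2
  rw [Nat.factorization_mul (mul_ne_zero c1 (z _)) (z _), Nat.factorization_mul c1 (z _)] at f3
  rw [Nat.factorization_mul (mul_ne_zero (by norm_num) c4) c1,
    Nat.factorization_mul (by norm_num) c4, Nat.factorization_mul c3 (mul_ne_zero c5 c2),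
    Nat.factorization_mul c5 c2, Nat.factorization_pow]
  simp only [Finsupp.add_apply, Finsupp.smul_apply, smul_eq_mul] at f1 f2 f3 ⊢
  -- a common bound for the exponents
  obtain ⟨b, hb⟩ : ∃ b, b = Nat.log p (6 * n) + 1 := ⟨_, rfl⟩
  have hlog : ∀ m ≤ 6 * n, Nat.log p m < b := by
    intro m hm
    have := Nat.log_mono_right (b := p) hm
    omega
  have F : ∀ m ≤ 6 * n, m.factorial.factorization p = ∑ e ∈ Ico 1 b, m / p ^ e :=
    fun m hm => Nat.factorization_factorial hp (hlog m hm)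
  rw [F _ (by omega), F _ (by omega), F _ (by omega)] at f1
  rw [F _ (by omega), F _ (by omega), F _ (by omega)] at f2
  rw [F _ (by omega), F _ (by omega), F _ (by omega)] at f3
  have f4 : (2 * n - 1).factorization p = ∑ e ∈ Ico 1 b, if p ^ e ∣ 2 * n - 1 then 1 else 0 := by
    rw [Nat.factorization_eq_card_pow_dvd_of_lt hp (by omega) (b := b), card_filter]
    exact Nat.lt_pow_of_log_lt hp.one_lt (hlog _ (by omega))
  rw [f4]
  -- the inequality of the sums
  have main : ∀ (d : ℕ → ℕ), (∀ e ∈ Ico 1 b, 3 * k / p ^ e + 2 * (k / p ^ e) + i / p ^ e +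
      j / p ^ e + 3 * n / p ^ e + d e ≤ 6 * k / p ^ e + n / p ^ e + 2 * n / p ^ e) →
      ∑ e ∈ Ico 1 b, 3 * k / p ^ e + 2 * ∑ e ∈ Ico 1 b, k / p ^ e + ∑ e ∈ Ico 1 b, i / p ^ e +
      ∑ e ∈ Ico 1 b, j / p ^ e + ∑ e ∈ Ico 1 b, 3 * n / p ^ e + ∑ e ∈ Ico 1 b, d e ≤
      ∑ e ∈ Ico 1 b, 6 * k / p ^ e + ∑ e ∈ Ico 1 b, n / p ^ e + ∑ e ∈ Ico 1 b, 2 * n / p ^ e := by
    intro d hd
    have := sum_le_sum hd
    simp only [sum_add_distrib, ← mul_sum] at this
    exact this
  have hpe : ∀ e, 0 < p ^ e := fun e => pow_pos hp.pos e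
  have fl0 := main (fun _ => 0) (fun e _ => by
    have := floor0 i j (p ^ e) (hpe e)
    simpa using this)
  rcases eq_or_ne p 2 with hp2 | hp2
  · -- `p = 2`
    have g1 : (8 : ℕ).factorization p = 3 := by
      rw [hp2, show (8 : ℕ) = 2 ^ 3 by norm_num, Nat.Prime.factorization_pow Nat.prime_two]
      simp
    have g2 : (∑ e ∈ Ico 1 b, if p ^ e ∣ 2 * n - 1 then 1 else 0) = 0 := by
      apply sum_eq_zero
      intro e he
      rw [mem_Ico] at he
      rw [if_neg]
      intro hdv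
      have : 2 ∣ 2 * n - 1 := (dvd_trans (dvd_pow_self 2 (by omega)) (hp2 ▸ hdv))
      omega
    have g3 : 4 ≤ (432 : ℕ).factorization p := by
      rw [hp2, ← Nat.Prime.pow_dvd_iff_le_factorization Nat.prime_two (by norm_num)]
      norm_num
    have g4 : 4 ≤ j * (432 : ℕ).factorization p :=
      g3.trans (Nat.le_mul_of_pos_left _ hj)
    rw [g1, g2]
    simp only [sum_const_zero] at fl0
    omega
  · have hp8 : (8 : ℕ).factorization p = 0 := by
      apply Nat.factorization_eq_zero_of_not_dvd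
      intro h
      have : p ∣ 2 := hp.dvd_of_dvd_pow (show p ∣ 2 ^ 3 by simpa using h)
      exact hp2 ((Nat.prime_dvd_prime_iff_eq hp Nat.prime_two).mp this)
    have hp3 : 3 ≤ p := by have := hp.two_le; omega
    rw [hp8]
    rcases eq_or_ne p 3 with h3p | h3p
    · -- `p = 3`
      have g3 : 3 ≤ (432 : ℕ).factorization p := by
        rw [h3p, ← Nat.Prime.pow_dvd_iff_le_factorization Nat.prime_three (by norm_num)]
        norm_num
      have g4 : 3 ≤ j * (432 : ℕ).factorization p :=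
        g3.trans (Nat.le_mul_of_pos_left _ hj)
      have hd3 : ∀ e ∈ Ico 1 b, 3 * k / p ^ e + 2 * (k / p ^ e) + i / p ^ e +
          j / p ^ e + 3 * n / p ^ e + (if e = 1 then 0 else if p ^ e ∣ 2 * n - 1 then 1 else 0) ≤
          6 * k / p ^ e + n / p ^ e + 2 * n / p ^ e := by
        intro e he
        have h0 := floor0 i j (p ^ e) (hpe e)
        rw [← hk, ← hn] at h0
        rw [mem_Ico] at he
        split_ifs with he1 hdv
        · exact h0
        · have hq : 3 < p ^ e := calc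
            3 < 3 ^ 2 := by norm_num
            _ ≤ p ^ 2 := Nat.pow_le_pow_left hp3 2
            _ ≤ p ^ e := Nat.pow_le_pow_right hp.pos (by omega)
          exact floor1 i j (p ^ e) hq hn0 hdv
        · exact h0
      have fl := main _ hd3
      have hs : (∑ e ∈ Ico 1 b, if p ^ e ∣ 2 * n - 1 then 1 else 0) ≤
          (∑ e ∈ Ico 1 b, if e = 1 then 0 else if p ^ e ∣ 2 * n - 1 then 1 else 0) + 1 := by
        have h5 : ∀ e ∈ Ico 1 b, (if p ^ e ∣ 2 * n - 1 then 1 else 0) ≤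
            (if e = 1 then 0 else if p ^ e ∣ 2 * n - 1 then 1 else 0) + if e = 1 then 1 else 0 := by
          intro e _
          split_ifs <;> simp
        have h6 := sum_le_sum h5
        rw [sum_add_distrib] at h6
        have h7 : (∑ e ∈ Ico 1 b, if e = 1 then 1 else 0) ≤ 1 := by
          rw [sum_ite_eq']
          split_ifs <;> simp
        omega
      omega
    · -- `p ≥ 5`
      have hd5 : ∀ e ∈ Ico 1 b, 3 * k / p ^ e + 2 * (k / p ^ e) + i / p ^ e +
          j / p ^ e + 3 * n / p ^ e + (if p ^ e ∣ 2 * n - 1 then 1 else 0) ≤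
          6 * k / p ^ e + n / p ^ e + 2 * n / p ^ e := by
        intro e he
        have h0 := floor0 i j (p ^ e) (hpe e)
        rw [← hk, ← hn] at h0
        rw [mem_Ico] at he
        split_ifs with hdv
        · have hq : 3 < p ^ e := calc
            3 < p := by omega
            _ = p ^ 1 := (pow_one p).symm
            _ ≤ p ^ e := Nat.pow_le_pow_right hp.pos he.1
          exact floor1 i j (p ^ e) hq hn0 hdv
        · exact h0
      have fl := main _ hd5
      omega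

/-- For every positive integer `n`, `8 (2 n - 1) C(3n, n)` divides the self-convolution
`∑_{j=0}^{n} a_j a_{n-j}`, where `a_k = C(6k, 3k) C(3k, k)`. -/
theorem result (n : ℕ) (hn : 0 < n) :
    (8 * (2 * (n : ℤ) - 1) * ((3 * n).choose n : ℤ)) ∣
      ∑ j ∈ range (n + 1), (((6 * j).choose (3 * j) * (3 * j).choose j : ℕ) : ℤ) *
        (((6 * (n - j)).choose (3 * (n - j)) * (3 * (n - j)).choose (n - j) : ℕ) : ℤ) := by
  have h := convolution n
  unfold a at h
  rw [h]
  have hD : (8 * (2 * (n : ℤ) - 1) * ((3 * n).choose n : ℤ)) =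
      ((8 * (2 * n - 1) * (3 * n).choose n : ℕ) : ℤ) := by
    have : ((2 * n - 1 : ℕ) : ℤ) = 2 * (n : ℤ) - 1 := by omega
    push_cast [this]
    ring
  rw [hD]
  apply dvd_sum
  intro k hk
  rw [mem_range] at hk
  have hdvd : 8 * (2 * n - 1) * (3 * n).choose n ∣ t k * (432 ^ (n - k) * k.choose (n - k)) := by
    by_cases h1 : n - k ≤ k
    · rcases Nat.eq_zero_or_pos (n - k) with h2 | h2
      · have : n = k := by omega
        subst this
        simpa using dvd_zero_case n hn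
      · have := dvd_pos_case (k - (n - k)) (n - k) h2
        rw [show k - (n - k) + 2 * (n - k) = n by omega, show k - (n - k) + (n - k) = k by omega]
          at this
        exact this
    · rw [Nat.choose_eq_zero_of_lt (by omega : k < n - k)]
      simp
  have h2 : ((t k * (432 ^ (n - k) * k.choose (n - k)) : ℕ) : ℤ) ∣
      (t k : ℤ) * ((-432) ^ (n - k) * (k.choose (n - k) : ℤ)) := by
    have : ((-432 : ℤ)) ^ (n - k) = (-1) ^ (n - k) * 432 ^ (n - k) := by
      rw [← mul_pow]; norm_num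
    rw [this]
    push_cast
    exact ⟨(-1) ^ (n - k), by ring⟩
  exact (Int.natCast_dvd_natCast.mpr hdvd).trans h2

end Pool.Agent.Results.MP_cbedb1_nt.SelfConvolution
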